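import Pool.Agent.Q301.SZ.NCt
import Pool.Agent.H635R2.Ext

/-!
# Strongly zero-dimensional realcompact spaces are `ℕ`-compact in ZF

In every model of Zermelo set theory (so in every model of ZF) every strongly zero-dimensional
realcompact space is `ℕ`-compact.
-/

namespace Pool.Agent.Results.MP_f5c99b_lc.NCompact

open FirstOrder FirstOrder.Language
open Pool.Agent.Helper672.Plain (LSet Zermelo El)
open Pool.Agent.H635Amen (IsReals)
open Pool.Agent.H310Top (IsTopology)
open Pool.Agent.Q301.SZ
open Pool.Agent.Q301.TM (IsRealcompact IsNCompact)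

universe u

theorem result (M : Type u) [LSet.Structure M] [Zermelo M] (r : M) [Field (El r)]
    [LinearOrder (El r)] [IsStrictOrderedRing (El r)] (hr : IsReals r) (x t : M)
    (ht : IsTopology t x) (hz : IsStronglyZeroDim t x r) (hx : IsRealcompact t x r) :
    IsNCompact t x := by
  let _ := Pool.Agent.Helper672.Plain.toL M
  have : Pool.Agent.Helper672.ZFA.IsModel M :=
    Pool.Agent.Helper672.ZFA.H635.isModel_of_zermelo inferInstance
  exact isNCompact_of hr ht hz hx

end Pool.Agent.Results.MP_f5c99b_lc.NCompact
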